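import Mathlib
import Pool.Agent.VM.Stmts

set_option autoImplicit false

namespace Pool.Agent.VM.H30

open Pool.Agent.Helper69_Weyl
open Pool.Agent.VM

/-- the mean of the square of a sum of characters modulo `q` with frequencies in `[0, q)` -/
theorem parseval (q : ℕ) (hq : 0 < q) (A : ℕ → ℂ) :
    ∑ j ∈ Finset.range q, ‖∑ c ∈ Finset.range q, A c * ee ((j : ℝ) * (c : ℝ) / (q : ℝ))‖ ^ 2 =
      q * ∑ c ∈ Finset.range q, ‖A c‖ ^ 2 := by
  have h : ((∑ j ∈ Finset.range q, ‖∑ c ∈ Finset.range q,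
      A c * ee ((j : ℝ) * (c : ℝ) / (q : ℝ))‖ ^ 2 : ℝ) : ℂ) =
      ((q * ∑ c ∈ Finset.range q, ‖A c‖ ^ 2 : ℝ) : ℂ) := by
    push_cast
    have e2 : ∀ j ∈ Finset.range q, ((‖∑ c ∈ Finset.range q,
        A c * ee ((j : ℝ) * (c : ℝ) / (q : ℝ))‖ : ℂ)) ^ 2 =
        ∑ c ∈ Finset.range q, ∑ d ∈ Finset.range q, A c * (starRingEnd ℂ) (A d) *
          ee ((j : ℝ) / q * ((c : ℤ) - (d : ℤ) : ℤ)) := by
      intro j _
      rw [← Complex.mul_conj', map_sum, Finset.sum_mul_sum]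
      refine Finset.sum_congr rfl fun c _ => Finset.sum_congr rfl fun d _ => ?_
      rw [map_mul, conj_ee]
      have : ee ((j : ℝ) / q * ((c : ℤ) - (d : ℤ) : ℤ)) =
          ee ((j : ℝ) * (c : ℝ) / (q : ℝ)) * ee (-((j : ℝ) * (d : ℝ) / (q : ℝ))) := by
        rw [← ee_add]
        congr 1
        push_cast
        ring
      rw [this]
      ring
    rw [Finset.sum_congr rfl e2, Finset.sum_comm, Finset.mul_sum]
    refine Finset.sum_congr rfl fun c hc => ?_
    rw [Finset.sum_comm]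
    have e3 : ∀ d ∈ Finset.range q, ∑ j ∈ Finset.range q, A c * (starRingEnd ℂ) (A d) *
          ee ((j : ℝ) / q * ((c : ℤ) - (d : ℤ) : ℤ)) =
        if d = c then (q : ℂ) * (‖A c‖ : ℂ) ^ 2 else 0 := by
      intro d hd
      rw [← Finset.mul_sum, sum_ee_div q hq]
      by_cases h : d = c
      · rw [h]
        simp [Complex.mul_conj']
        ring
      · have hb' := Finset.mem_range.1 hc
        have hc' := Finset.mem_range.1 hd
        have hnd : ¬ (q : ℤ) ∣ ((c : ℤ) - (d : ℤ)) := by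
          intro hdv
          have h5 : |((c : ℤ) - (d : ℤ))| < q := by
            rw [abs_lt]
            constructor <;> omega
          have := Int.eq_zero_of_abs_lt_dvd hdv h5
          omega
        rw [if_neg hnd, if_neg h, mul_zero]
    rw [Finset.sum_congr rfl e3]
    simp [hc]
  exact_mod_cast h

/-- the value of the sum for `k = 1` by classes modulo `q` -/
theorem G_classes (q : ℕ) (hq : 0 < q) (s : Finset ℤ) (w : ℤ → ℂ) (ζ : Fin 1 → ℤ) :
    G q (mc 0 1) s w ζ = ∑ c ∈ Finset.range q,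
      (∑ x ∈ cl q (c : ℤ) s, w x) * ee (((ζ 0 : ℤ) : ℝ) * (c : ℝ) / (q : ℝ)) := by
  have hq0 : (0 : ℤ) < q := by exact_mod_cast hq
  have hqr : (q : ℝ) ≠ 0 := by exact_mod_cast hq.ne'
  have hmaps : ∀ x ∈ s, (x % (q : ℤ)).toNat ∈ Finset.range q := by
    intro x _
    rw [Finset.mem_range]
    have h1 := Int.emod_lt_of_pos x hq0
    have h2 := Int.emod_nonneg x hq0.ne'
    omega
  unfold G
  rw [← Finset.sum_fiberwise_of_maps_to hmaps]
  refine Finset.sum_congr rfl fun c hc => ?_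
  have hcl : (s.filter fun x => (x % (q : ℤ)).toNat = c) = cl q (c : ℤ) s := by
    unfold cl
    ext x
    simp only [Finset.mem_filter, and_congr_right_iff]
    intro _
    have h2 := Int.emod_nonneg x hq0.ne'
    have h3 : (c : ℤ) % (q : ℤ) = c := Int.emod_eq_of_lt (by positivity)
      (by exact_mod_cast Finset.mem_range.1 hc)
    unfold Int.ModEq
    rw [h3]
    constructor
    · intro h
      omega
    · intro h
      omega
  rw [hcl, Finset.sum_mul]
  refine Finset.sum_congr rfl fun x hx => ?_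
  congr 1
  obtain ⟨m, hm⟩ := (Int.modEq_iff_dvd.1 (Finset.mem_filter.1 hx).2)
  have hx' : x = (c : ℤ) - (q : ℤ) * m := by linarith
  have h4 : (((∑ j, ζ j * mc 0 1 j x : ℤ) : ℝ) / (q : ℝ)) =
      ((ζ 0 : ℤ) : ℝ) * (c : ℝ) / (q : ℝ) + ((-(ζ 0 * m) : ℤ) : ℝ) := by
    rw [Fin.sum_univ_one]
    unfold mc
    simp only [Fin.val_zero, zero_add, pow_one, add_zero]
    rw [hx']
    push_cast
    field_simp
    ring
  rw [h4, ee_add, ee_int, mul_one]

theorem Av_one (q : ℕ) (Φ : (Fin 1 → ℤ) → ℝ) :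
    Av q 1 Φ = (∑ j ∈ Finset.range q, Φ (fun _ => (j : ℤ))) / (q : ℝ) := by
  unfold Av
  rw [pow_one]
  congr 1
  rw [Finset.sum_range]
  exact Fintype.sum_equiv (Equiv.funUnique (Fin 1) (Fin q)) _ _ (fun ζ => by
    congr 1
    funext j
    rw [Subsingleton.elim j 0]
    rfl)

theorem mom_one (q : ℕ) (hq : 0 < q) (s : Finset ℤ) (w : ℤ → ℂ) :
    mom q (mc 0 1) 1 s w = ∑ c ∈ Finset.range q, ‖∑ x ∈ cl q (c : ℤ) s, w x‖ ^ 2 := by
  have hqr : (q : ℝ) ≠ 0 := by exact_mod_cast hq.ne'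
  unfold mom
  rw [Av_one, div_eq_iff hqr, mul_comm _ (q : ℝ), ← parseval q hq]
  refine Finset.sum_congr rfl fun j _ => ?_
  rw [G_classes q hq, mul_one]
  push_cast
  rfl

theorem cl_cl (q : ℕ) (_hq : 0 < q) (c d : ℕ) (hc : c < q) (hd : d < q) (s : Finset ℤ) :
    cl q (d : ℤ) (cl q (c : ℤ) s) = if d = c then cl q (c : ℤ) s else ∅ := by
  unfold cl
  rw [Finset.filter_filter]
  split_ifs with h
  · subst h
    simp
  · rw [Finset.filter_eq_empty_iff]
    rintro x _ ⟨h1, h2⟩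
    apply h
    have h3 : (d : ℤ) ≡ c [ZMOD (q : ℤ)] := h2.symm.trans h1
    have h4 : d ≡ c [MOD q] := (Int.natCast_modEq_iff).1 h3
    exact Nat.ModEq.eq_of_lt_of_lt h4 hd hc

theorem bas : BasStmt := by
  intro p hp ε hε
  refine ⟨1, one_pos, fun n s w => ?_⟩
  have hq : 0 < p ^ n := pow_pos hp.pos n
  have htri : tri 1 = 1 := rfl
  rw [htri, one_mul, pow_one, one_mul]
  have h1 : Sq (p ^ n) (mc 0 1) 1 (p ^ n) s w = mom (p ^ n) (mc 0 1) 1 s w := by
    unfold Sq
    rw [mom_one _ hq s w]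
    refine Finset.sum_congr rfl fun c hc => ?_
    have hc' := Finset.mem_range.1 hc
    rw [Nat.cast_one, div_one, Real.rpow_one, mom_one _ hq,
      Finset.sum_eq_single_of_mem c hc]
    · rw [cl_cl _ hq c c hc' hc', if_pos rfl]
    · intro d hd hdc
      rw [cl_cl _ hq c d hc' (Finset.mem_range.1 hd), if_neg hdc]
      simp
  rw [h1]
  have h2 : 0 ≤ mom (p ^ n) (mc 0 1) 1 s w := by
    rw [mom_one _ hq]
    positivity
  have h3 : (1 : ℝ) ≤ (p : ℝ) ^ (ε * (n : ℝ)) := by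
    apply Real.one_le_rpow
    · exact_mod_cast hp.one_lt.le
    · positivity
  nlinarith

end Pool.Agent.VM.H30
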