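import Mathlib
import Pool.Agent.VM.StmtsW

set_option autoImplicit false

namespace Pool.Agent.VM.H30

theorem hmu : HmuStmt := by
  intro ι β _ _ P B b F s hs hF hb
  obtain ⟨n, rfl⟩ : ∃ n, s = n + 1 := ⟨s - 1, by omega⟩
  rcases P.eq_empty_or_nonempty with rfl | hP
  · simp
  have hc : (0 : ℝ) < P.card := by exact_mod_cast hP.card_pos
  have h1 : (∑ p ∈ P, F (b p)) ^ (n + 1) ≤ (P.card : ℝ) ^ n * ∑ p ∈ P, F (b p) ^ (n + 1) := by
    have h := pow_sum_div_card_le_sum_pow (s := P) (f := fun p => F (b p))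
      (fun p _ => hF (b p)) n
    rw [div_le_iff₀ (by positivity)] at h
    linarith [mul_comm (∑ p ∈ P, F (b p) ^ (n + 1)) ((P.card : ℝ) ^ n)]
  have h2 : ∑ p ∈ P, F (b p) ^ (n + 1) =
      ∑ x ∈ B, ((P.filter (fun p => b p = x)).card : ℝ) * F x ^ (n + 1) := by
    rw [← Finset.sum_fiberwise_of_maps_to hb]
    refine Finset.sum_congr rfl fun x _ => ?_
    rw [← nsmul_eq_mul, ← Finset.sum_const]
    refine Finset.sum_congr rfl fun p hp => ?_
    rw [(Finset.mem_filter.1 hp).2]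
  have h3 : (((P ×ˢ P).filter (fun v => b v.1 = b v.2)).card : ℝ) =
      ∑ x ∈ B, ((P.filter (fun p => b p = x)).card : ℝ) ^ 2 := by
    have h4 : ((P ×ˢ P).filter (fun v => b v.1 = b v.2)).card =
        ∑ x ∈ B, ((P.filter (fun p => b p = x)).card) ^ 2 := by
      rw [Finset.card_eq_sum_card_fiberwise (f := fun v => b v.1) (t := B)]
      · refine Finset.sum_congr rfl fun x _ => ?_
        rw [sq, ← Finset.card_product]
        congr 1
        ext ⟨v, w⟩
        simp only [Finset.mem_filter, Finset.mem_product]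
        constructor
        · rintro ⟨⟨⟨hv, hw⟩, h5⟩, h6⟩
          exact ⟨⟨hv, h6⟩, hw, h5 ▸ h6⟩
        · rintro ⟨⟨hv, h6⟩, hw, h7⟩
          exact ⟨⟨⟨hv, hw⟩, h6.trans h7.symm⟩, h6⟩
      · intro v hv
        have := (Finset.mem_filter.1 hv).1
        exact hb _ (Finset.mem_product.1 this).1
    exact_mod_cast h4
  have h5 : (∑ x ∈ B, ((P.filter (fun p => b p = x)).card : ℝ) * F x ^ (n + 1)) ^ 2 ≤
      (∑ x ∈ B, ((P.filter (fun p => b p = x)).card : ℝ) ^ 2) *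
        ∑ x ∈ B, (F x ^ (n + 1)) ^ 2 := Finset.sum_mul_sq_le_sq_mul_sq _ _ _
  have hS0 : 0 ≤ ∑ p ∈ P, F (b p) := Finset.sum_nonneg fun p _ => hF _
  calc (∑ p ∈ P, F (b p)) ^ (2 * (n + 1)) = ((∑ p ∈ P, F (b p)) ^ (n + 1)) ^ 2 := by
        rw [← pow_mul, mul_comm]
    _ ≤ ((P.card : ℝ) ^ n * ∑ p ∈ P, F (b p) ^ (n + 1)) ^ 2 :=
        pow_le_pow_left₀ (by positivity) h1 2
    _ = (P.card : ℝ) ^ (2 * (n + 1) - 2) *
        (∑ x ∈ B, ((P.filter (fun p => b p = x)).card : ℝ) * F x ^ (n + 1)) ^ 2 := by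
        rw [h2, mul_pow, ← pow_mul]
        congr 2
        omega
    _ ≤ (P.card : ℝ) ^ (2 * (n + 1) - 2) *
        ((∑ x ∈ B, ((P.filter (fun p => b p = x)).card : ℝ) ^ 2) *
        ∑ x ∈ B, (F x ^ (n + 1)) ^ 2) := mul_le_mul_of_nonneg_left h5 (by positivity)
    _ = _ := by
        rw [← h3, ← mul_assoc]
        congr 1
        refine Finset.sum_congr rfl fun x _ => ?_
        rw [← pow_mul, mul_comm]

end Pool.Agent.VM.H30
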